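import Pool.Agent.MP_ea150c_mp.H20.SpecR

/-! No match with the power sums of the roots of a quadratic polynomial. -/

namespace Pool.Agent.MP_ea150c_mp.H9

open Polynomial Pool.Agent.MP_ea150c_mp.H20

theorem zero_of_dvd {p : ℕ} [Fact p.Prime] (q : ℤ_[p]) (h : ∀ k, 1 ≤ k → (p : ℤ_[p]) ^ k ∣ q) :
    q = 0 := by
  by_contra h0
  have h1 := h (q.valuation + 1) (by omega)
  rw [← Ideal.mem_span_singleton, PadicInt.mem_span_pow_iff_le_valuation q h0] at h1
  omega

theorem sCor : SCor := by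
  intro p _ T s a d _ h1 hr hd hi ⟨u, hu, _, hT, hc⟩ hs
  have ht : ∀ k, 1 ≤ k → (p : ℤ_[p]) ^ k ∣ u ^ k - (s k : ℤ_[p]) := fun k hk => by
    have e1 := (PadicInt.pow_p_dvd_int_iff k _).2 (hs k hk)
    have e2 := e1.sub (hT k hk)
    push_cast at e2
    rwa [sub_sub_sub_cancel_left] at e2
  have hq : u ^ 2 - a * u + d = 0 := zero_of_dvd _ fun k hk => by
    have e1 := (pow_dvd_pow _ (by omega : k ≤ k + 2)).trans (ht (k + 2) (by omega))
    have e2 := (pow_dvd_pow _ (by omega : k ≤ k + 1)).trans (ht (k + 1) (by omega))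
    have e3 := (e1.sub (e2.mul_left a)).add ((ht k hk).mul_left d)
    rw [hr k] at e3
    push_cast at e3
    refine (hu.pow k).dvd_mul_left.1 (e3.trans (dvd_of_eq ?_))
    ring
  have hb : (p : ℤ_[p]) ∣ a - u := by
    have := ht 1 le_rfl
    rw [pow_one, pow_one, h1] at this
    exact dvd_sub_comm.1 this
  have hub : u * (a - u) = d := by linear_combination -hq
  have hpd : (p : ℤ) ∣ d := by
    have := (PadicInt.pow_p_dvd_int_iff 1 d).1 (by rw [pow_one, ← hub]; exact hb.mul_left u)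
    rwa [pow_one] at this
  have hq' : (u : ℚ_[p]) ^ 2 - a * u + d = 0 := by
    have := congrArg (fun x : ℤ_[p] => (x : ℚ_[p])) hq
    simpa using this
  have hm : X ^ 2 - C (a : ℚ) * X + C (d : ℚ) = minpoly ℚ (u : ℚ_[p]) :=
    minpoly.eq_of_irreducible_of_monic (hi hpd) (by simpa using hq') (by monicity!)
  have hn : ‖u‖ = 1 := PadicInt.isUnit_iff.1 hu
  have hb1 : ‖(a : ℤ_[p]) - u‖ < 1 := (PadicInt.norm_lt_one_iff_dvd _).2 hb
  have e1 := hc (algebraMap ℚ_[p] (PadicAlgCl p) ((a - u : ℤ_[p]) : ℚ_[p])) (by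
    rw [aeval_algebraMap_apply, ← hm, map_eq_zero]
    simp only [map_add, map_sub, map_mul, map_pow, aeval_X, map_intCast]
    push_cast
    linear_combination hq') fun h => by
      have h2 : ((a - u : ℤ_[p]) : ℚ_[p]) = u := (algebraMap ℚ_[p] (PadicAlgCl p)).injective h
      rw [Subtype.ext h2, hn] at hb1
      exact lt_irrefl _ hb1
  have e2 : ‖algebraMap ℚ_[p] (PadicAlgCl p) ((a - u : ℤ_[p]) : ℚ_[p])‖ = ‖(d : ℤ_[p])‖ := by
    rw [← hub, norm_mul, hn, one_mul]
    exact PadicAlgCl.norm_extends p _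
  rw [e2, ← zpow_neg_one, PadicInt.norm_lt_pow_iff_norm_le_pow_sub_one] at e1
  exact hd (PadicInt.norm_int_le_pow_iff_dvd.1 e1)

end Pool.Agent.MP_ea150c_mp.H9
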