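import Pool.Agent.MP_ea150c_mp.H20.SpecM

/-! Divisibility from a free action of the plane, and two facts on dimensions. -/

namespace Pool.Agent.MP_ea150c_mp.H9

open Finset Pool.Agent.MP_ea150c_mp.H20

theorem dvd_of_moves {α β : Type} [Fintype β] [DecidableEq β] [Nonempty β] (S : Finset α)
    (π : α → β) (h : ∀ b b', ∃ f : α → α, Function.Injective f ∧
      ∀ x ∈ S, π x = b → f x ∈ S ∧ π (f x) = b') : Fintype.card β ∣ S.card := by
  have h1 : ∀ b b', (S.filter fun x => π x = b).card ≤ (S.filter fun x => π x = b').card := by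
    intro b b'
    obtain ⟨f, hf, h2⟩ := h b b'
    refine card_le_card_of_injOn f (fun x hx => ?_) hf.injOn
    rw [mem_coe, mem_filter] at hx ⊢
    exact h2 x hx.1 hx.2
  obtain ⟨b₀⟩ := ‹Nonempty β›
  rw [card_eq_sum_card_fiberwise (f := π) (t := univ) fun _ _ => mem_coe.2 (mem_univ _),
    sum_congr rfl fun b _ => le_antisymm (h1 b b₀) (h1 b₀ b), sum_const, card_univ, smul_eq_mul]
  exact dvd_mul_right _ _

theorem div_one {F E : Type} [Field F] [Fintype F] [DecidableEq F] [Fintype E] [DecidableEq E]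
    (X : Submodule F (E → F)) (R : Finset E) :
    Fintype.card F ^ min 2 (Module.finrank F X) ∣ NQ 2 X R := by
  classical
  have : Fintype X := Fintype.ofFinite X
  have e : NQ 2 X R = (univ.filter fun y : (X × X) × (X × X) => ∀ e ∈ R,
      (y.1.1 : E → F) e * (y.1.2 : E → F) e + (y.2.1 : E → F) e * (y.2.2 : E → F) e ≠ 0).card := by
    rw [← Fintype.card_subtype, ← Nat.card_eq_fintype_card]
    exact Nat.card_congr ((finTwoArrowEquiv (X × X)).subtypeEquiv fun y => by
      simp [Fin.sum_univ_two])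
  rw [e, card_eq_sum_card_fiberwise (f := fun y : (X × X) × (X × X) => y.1.1) (t := univ)
    fun _ _ => mem_coe.2 (mem_univ _)]
  refine dvd_sum fun c _ => ?_
  by_cases hc : c = 0
  · subst hc
    refine (pow_dvd_pow _ (min_le_right _ _)).trans ?_
    rw [← Module.card_eq_pow_finrank]
    refine dvd_of_moves _ (fun y => y.1.2) fun b b' =>
      ⟨fun y => ((y.1.1, y.1.2 + (b' - b)), y.2), fun y y' h => ?_, fun y hy h => ⟨?_, ?_⟩⟩
    · simp only [Prod.mk.injEq, add_left_inj] at h
      exact Prod.ext (Prod.ext h.1.1 h.1.2) h.2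
    · simp only [mem_filter, mem_univ, true_and] at hy ⊢
      refine ⟨fun e he => ?_, hy.2⟩
      have := hy.1 e he
      rw [hy.2] at this ⊢
      simpa using this
    · simp only at h ⊢
      rw [h, add_sub_cancel]
  · refine (pow_dvd_pow _ (min_le_left _ _)).trans ?_
    obtain ⟨e₀, h0⟩ : ∃ e₀, (c : E → F) e₀ ≠ 0 :=
      Function.ne_iff.1 fun h => hc (Subtype.ext h)
    rw [sq, ← Fintype.card_prod]
    refine dvd_of_moves _ (fun y => ((y.2.1 : E → F) e₀, (y.2.2 : E → F) e₀)) fun b b' => ?_
    obtain ⟨n', hn'⟩ : ∃ n', b.1 - n' * (c : E → F) e₀ = b'.1 :=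
      ⟨(b.1 - b'.1) / (c : E → F) e₀, by field_simp; ring⟩
    obtain ⟨n, hn⟩ : ∃ n, b.2 - n * (c : E → F) e₀ = b'.2 :=
      ⟨(b.2 - b'.2) / (c : E → F) e₀, by field_simp; ring⟩
    refine ⟨fun y => ((y.1.1, y.1.2 + (n • y.2.1 + n' • y.2.2 - (n * n') • c)),
      (y.2.1 - n' • c, y.2.2 - n • c)), fun y y' h => ?_, fun y hy h => ⟨?_, ?_⟩⟩
    · simp only [Prod.mk.injEq, sub_left_inj] at h
      obtain ⟨⟨h1, h2⟩, h3, h4⟩ := h
      rw [h3, h4, add_left_inj] at h2
      exact Prod.ext (Prod.ext h1 h2) (Prod.ext h3 h4)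
    · simp only [mem_filter, mem_univ, true_and] at hy ⊢
      refine ⟨fun e he h1 => hy.1 e he ?_, hy.2⟩
      rw [← h1, hy.2]
      simp only [Submodule.coe_add, Submodule.coe_sub, Submodule.coe_smul, Pi.add_apply,
        Pi.sub_apply, Pi.smul_apply, smul_eq_mul]
      ring
    · subst h
      exact Prod.ext hn' hn

theorem sDiv : SDiv := by
  intro F E _ _ _ _ _ X
  refine ⟨div_one X, fun D => ?_, fun U x => ?_⟩
  · let f : X →ₗ[F] (D → F) := LinearMap.pi fun e => (LinearMap.proj (e : E)).comp X.subtype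
    have h1 := f.finrank_range_add_finrank_ker
    have h2 : Module.finrank F (LinearMap.range f) ≤ D.card :=
      (Submodule.finrank_le _).trans (by simp)
    have h3 : Module.finrank F (LinearMap.ker f) ≤ Module.finrank F (van X D) := by
      rw [← Submodule.finrank_map_subtype_eq X]
      refine Submodule.finrank_mono ?_
      rintro _ ⟨y, hy, rfl⟩
      exact ⟨y.2, fun e he => congrFun (LinearMap.mem_ker.1 hy) ⟨e, he⟩⟩
    omega
  · let W : Submodule F (U × X) :=
      { carrier := {y | ∀ e, al (x e) * (y.2 : E → F) e = te (x e) * (y.1 : E → F) e}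
        zero_mem' := fun e => by simp
        add_mem' := fun {a b} ha hb e => by
          simp only [Prod.snd_add, Prod.fst_add, Submodule.coe_add, Pi.add_apply, mul_add, ha e,
            hb e]
        smul_mem' := fun k a ha e => by
          simp only [Prod.smul_snd, Prod.smul_fst, Submodule.coe_smul, Pi.smul_apply, smul_eq_mul]
          rw [mul_left_comm, ha e, mul_left_comm] }
    refine ⟨Module.finrank F W, ?_⟩
    rw [← Nat.card_eq_fintype_card]
    exact Module.natCard_eq_pow_finrank (K := F) (V := W)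

end Pool.Agent.MP_ea150c_mp.H9
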