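import Mathlib

/-! A basis adapted to a filtration and an involution. -/

namespace Pool.Agent.MP_ea150c_mp.H9

open Module

theorem simdiag {O : Type} [CommRing O] [IsDomain O] [IsPrincipalIdealRing O] (n : ℕ) :
    ∀ (T : Type) [AddCommGroup T] [Module O T] [Module.Finite O T] [IsTorsionFree O T]
      (f : Fin n → T →ₗ[O] T), (∀ k x, f k (f k x) = f k x) → (∀ k l x, f k (f l x) = f l (f k x)) →
      ∃ (ι : Type) (_ : Fintype ι) (b : Basis ι O T), ∀ k i, f k (b i) = b i ∨ f k (b i) = 0 := by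
  induction n with
  | zero =>
    intro T _ _ _ _ f _ _
    exact ⟨_, inferInstance, Module.Free.chooseBasis O T, fun k => k.elim0⟩
  | succ n ih =>
    intro T _ _ _ _ f h1 h2
    have hc : IsCompl (LinearMap.range (f 0)) (LinearMap.ker (f 0)) :=
      LinearMap.IsIdempotentElem.isCompl (LinearMap.ext (h1 0))
    have hA : ∀ k, ∀ x ∈ LinearMap.range (f 0), f k x ∈ LinearMap.range (f 0) := by
      rintro k _ ⟨y, rfl⟩
      exact ⟨f k y, h2 0 k y⟩
    have hB : ∀ k, ∀ x ∈ LinearMap.ker (f 0), f k x ∈ LinearMap.ker (f 0) := fun k x hx => by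
      rw [LinearMap.mem_ker] at hx ⊢
      rw [h2, hx, map_zero]
    obtain ⟨ι, _, a, ha⟩ := ih _ (fun k => (f k.succ).restrict (hA k.succ))
      (fun k x => Subtype.ext (h1 _ _)) fun k l x => Subtype.ext (h2 _ _ _)
    obtain ⟨κ, _, c, hc'⟩ := ih _ (fun k => (f k.succ).restrict (hB k.succ))
      (fun k x => Subtype.ext (h1 _ _)) fun k l x => Subtype.ext (h2 _ _ _)
    refine ⟨ι ⊕ κ, inferInstance, (a.prod c).map (Submodule.prodEquivOfIsCompl _ _ hc), ?_⟩
    rintro k (i | i)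
    · have e : (a.prod c).map (Submodule.prodEquivOfIsCompl _ _ hc) (Sum.inl i) = a i := by simp
      rw [e]
      refine Fin.cases ?_ (fun k => ?_) k
      · obtain ⟨y, hy⟩ := (a i).2
        exact Or.inl (by rw [← hy, h1])
      · exact (ha k i).imp (congrArg Subtype.val) (congrArg Subtype.val)
    · have e : (a.prod c).map (Submodule.prodEquivOfIsCompl _ _ hc) (Sum.inr i) = c i := by simp
      rw [e]
      refine Fin.cases (Or.inr (c i).2) (fun k => ?_) k
      exact (hc' k i).imp (congrArg Subtype.val) (congrArg Subtype.val)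

section
variable {O T ι : Type} [CommRing O] [AddCommGroup T] [Module O T] (b : Basis ι O T)

theorem repr_diag (f : T →ₗ[O] T) (s : ι → O) (h : ∀ i, f (b i) = s i • b i) (x : T) (i : ι) :
    b.repr (f x) i = s i * b.repr x i := by
  have : (b.coord i).comp f = s i • b.coord i := b.ext fun j => by
    classical
    simp only [LinearMap.comp_apply, h, map_smul, Basis.coord_apply, Basis.repr_self,
      LinearMap.smul_apply, smul_eq_mul, Finsupp.single_apply]
    split_ifs with e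
    · rw [e]
    · simp
  exact LinearMap.congr_fun this x

theorem fix_iff (f : T →ₗ[O] T) (h : ∀ i, f (b i) = b i ∨ f (b i) = 0) (x : T) :
    f x = x ↔ ∀ i, f (b i) ≠ b i → b.repr x i = 0 := by
  classical
  have h1 := repr_diag b f (fun i => if f (b i) = b i then 1 else 0) (fun i => by
    split_ifs with e
    · rw [e, one_smul]
    · rw [(h i).resolve_left e, zero_smul]) x
  constructor
  · intro e i hi
    have := h1 i
    rwa [e, if_neg hi, zero_mul] at this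
  · intro e
    refine b.ext_elem fun i => ?_
    rw [h1 i]
    split_ifs with k
    · rw [one_mul]
    · rw [e i k, zero_mul]

end

variable {p : ℕ} [Fact p.Prime] {T : Type} [AddCommGroup T] [Module ℤ_[p] T]
  [Module.Finite ℤ_[p] T]

theorem two_inv (hp : 3 ≤ p) : ∃ h : ℤ_[p], h + h = 1 := by
  have h1 : ¬ ‖((2 : ℤ) : ℤ_[p])‖ < 1 := by
    rw [PadicInt.norm_int_lt_one_iff_dvd]
    intro h
    have := Int.le_of_dvd (by norm_num) h
    omega
  obtain ⟨h, hh⟩ := (PadicInt.isUnit_iff.2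
    (le_antisymm (PadicInt.norm_le_one _) (not_lt.1 h1))).exists_right_inv
  exact ⟨h, by rw [← hh]; push_cast; ring⟩

theorem retract (hp : 3 ≤ p) (ε : T →ₗ[ℤ_[p]] T) (hε : ∀ x, ε (ε x) = x) (W : Submodule ℤ_[p] T)
    (hW : ∀ x ∈ W, ε x ∈ W) (hs : ∀ x, (p : ℤ_[p]) • x ∈ W → x ∈ W) :
    ∃ r : T →ₗ[ℤ_[p]] T, (∀ x, r x ∈ W) ∧ (∀ x ∈ W, r x = x) ∧ ∀ x, ε (r x) = r (ε x) := by
  have h1 : ∀ (n : ℕ) x, (p : ℤ_[p]) ^ n • x ∈ W → x ∈ W := by
    intro n
    induction n with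
    | zero => simp
    | succ n ih => intro x hx; rw [pow_succ, mul_smul] at hx; exact hs x (ih _ hx)
  have : IsTorsionFree ℤ_[p] (T ⧸ W) := IsTorsionFree.of_smul_eq_zero fun a m h => by
    obtain ⟨x, rfl⟩ := W.mkQ_surjective m
    refine or_iff_not_imp_left.2 fun ha => ?_
    rw [← map_smul, Submodule.mkQ_apply, Submodule.Quotient.mk_eq_zero, PadicInt.unitCoeff_spec ha,
      mul_smul] at h
    rw [Submodule.mkQ_apply, Submodule.Quotient.mk_eq_zero]
    exact h1 _ x ((W.smul_mem_iff_of_isUnit (Units.isUnit _)).1 h)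
  obtain ⟨s, hs⟩ := Module.projective_lifting_property W.mkQ LinearMap.id W.mkQ_surjective
  obtain ⟨h, hh⟩ := two_inv hp
  let r : T →ₗ[ℤ_[p]] T := LinearMap.id - s ∘ₗ W.mkQ
  have r1 : ∀ x, r x ∈ W := fun x => by
    rw [← Submodule.Quotient.mk_eq_zero, ← Submodule.mkQ_apply]
    have := LinearMap.congr_fun hs (W.mkQ x)
    simp only [r, LinearMap.sub_apply, LinearMap.id_apply, LinearMap.comp_apply, map_sub] at this ⊢
    rw [this, sub_self]
  have r2 : ∀ x ∈ W, r x = x := fun x hx => by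
    simp [r, (Submodule.Quotient.mk_eq_zero W).2 hx]
  refine ⟨h • (r + ε ∘ₗ r ∘ₗ ε), fun x => W.smul_mem _ (W.add_mem (r1 x) (hW _ (r1 _))),
    fun x hx => ?_, fun x => ?_⟩
  · simp only [LinearMap.smul_apply, LinearMap.add_apply, LinearMap.comp_apply]
    rw [r2 x hx, r2 _ (hW x hx), hε, smul_add, ← add_smul, hh, one_smul]
  · simp only [LinearMap.smul_apply, LinearMap.add_apply, LinearMap.comp_apply, map_smul, map_add,
      hε]
    rw [add_comm]

theorem adapted [Module.Free ℤ_[p] T] (hp : 3 ≤ p) (ε : T →ₗ[ℤ_[p]] T) (hε : ∀ x, ε (ε x) = x)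
    (W0 W1 W2 K : Submodule ℤ_[p] T) (h0 : ∀ x ∈ W0, ε x ∈ W0) (h1 : ∀ x ∈ W1, ε x ∈ W1)
    (h2 : ∀ x ∈ W2, ε x ∈ W2) (hK : ∀ x ∈ K, ε x ∈ K) (l01 : W0 ≤ W1) (l12 : W1 ≤ W2)
    (hc : IsCompl W2 K) (s0 : ∀ x, (p : ℤ_[p]) • x ∈ W0 → x ∈ W0)
    (s1 : ∀ x, (p : ℤ_[p]) • x ∈ W1 → x ∈ W1) :
    ∃ (ι : Type) (_ : Fintype ι) (b : Basis ι ℤ_[p] T) (lv : ι → ℕ) (par : ι → Bool),
      (∀ i, ε (b i) = (if par i then -1 else 1 : ℤ_[p]) • b i) ∧
      (∀ x, x ∈ W0 ↔ ∀ i, ¬ lv i ≤ 0 → b.repr x i = 0) ∧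
      (∀ x, x ∈ W1 ↔ ∀ i, ¬ lv i ≤ 1 → b.repr x i = 0) ∧
      (∀ x, x ∈ K ↔ ∀ i, lv i ≠ 3 → b.repr x i = 0) := by
  classical
  obtain ⟨h, hh⟩ := two_inv hp
  obtain ⟨r0, a0, b0, c0⟩ := retract hp ε hε W0 h0 s0
  obtain ⟨r1, a1, b1, c1⟩ := retract hp ε hε W1 h1 s1
  let π2 := W2.projection K hc
  have a2 : ∀ x, π2 x ∈ W2 := Submodule.projection_apply_mem hc
  have b2 : ∀ x ∈ W2, π2 x = x := fun x hx => Submodule.projection_apply_of_mem_left hc hx
  have d2 : ∀ x, π2 x = 0 ↔ x ∈ K := fun x => Submodule.projection_apply_eq_zero_iff hc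
  have e2 : ∀ x, x - π2 x ∈ K := fun x => by rw [← d2, map_sub, b2 _ (a2 x), sub_self]
  have c2 : ∀ x, ε (π2 x) = π2 (ε x) := fun x => by
    have := (d2 _).2 (hK _ (e2 x))
    rw [map_sub, map_sub, b2 _ (h2 _ (a2 x)), sub_eq_zero] at this
    exact this.symm
  let π1 := r1 ∘ₗ π2
  let π0 := r0 ∘ₗ π1
  let κ : T →ₗ[ℤ_[p]] T := LinearMap.id - π2
  let η : T →ₗ[ℤ_[p]] T := h • (LinearMap.id + ε)
  have f1 : ∀ x ∈ W1, π1 x = x := fun x hx => by
    change r1 (π2 x) = x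
    rw [b2 x (l12 hx), b1 x hx]
  have f0 : ∀ x ∈ W0, π0 x = x := fun x hx => by
    change r0 (π1 x) = x
    rw [f1 x (l01 hx), b0 x hx]
  have g1 : ∀ x, π1 x ∈ W1 := fun x => a1 _
  have g0 : ∀ x, π0 x ∈ W0 := fun x => a0 _
  have k1 : ∀ x ∈ K, π1 x = 0 := fun x hx => by
    change r1 (π2 x) = 0
    rw [(d2 x).2 hx, map_zero]
  have k0 : ∀ x ∈ K, π0 x = 0 := fun x hx => by
    change r0 (π1 x) = 0
    rw [k1 x hx, map_zero]
  have kK : ∀ x, κ x ∈ K := e2
  have kf : ∀ x, κ x = x ↔ x ∈ K := fun x => by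
    rw [← d2]; exact sub_eq_self
  have kW : ∀ x ∈ W2, κ x = 0 := fun x hx => by
    change x - π2 x = 0
    rw [b2 x hx, sub_self]
  have hη : ∀ g : T →ₗ[ℤ_[p]] T, (∀ x, ε (g x) = g (ε x)) → ∀ x, η (g x) = g (η x) := by
    intro g hg x
    simp only [η, LinearMap.smul_apply, LinearMap.add_apply, LinearMap.id_apply, map_smul, map_add,
      hg]
  have n1 : ∀ x, ε (π1 x) = π1 (ε x) := fun x => by
    change ε (r1 (π2 x)) = r1 (π2 (ε x))
    rw [c1, c2]
  have n0 : ∀ x, ε (π0 x) = π0 (ε x) := fun x => by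
    change ε (r0 (π1 x)) = r0 (π1 (ε x))
    rw [c0, n1]
  have nk : ∀ x, ε (κ x) = κ (ε x) := fun x => by
    change ε (x - π2 x) = ε x - π2 (ε x)
    rw [map_sub, c2]
  have m01 : ∀ x, π0 (π1 x) = π1 (π0 x) := fun x => by
    rw [f1 _ (l01 (g0 x))]
    change r0 (π1 (π1 x)) = r0 (π1 x)
    rw [f1 _ (g1 x)]
  have m0k : ∀ x, π0 (κ x) = κ (π0 x) := fun x => by
    rw [k0 _ (kK x), kW _ (l12 (l01 (g0 x)))]
  have m1k : ∀ x, π1 (κ x) = κ (π1 x) := fun x => by
    rw [k1 _ (kK x), kW _ (l12 (g1 x))]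
  have ηη : ∀ x, η (η x) = η x := fun x => by
    simp only [η, LinearMap.smul_apply, LinearMap.add_apply, LinearMap.id_apply, map_smul, map_add,
      hε]
    rw [add_comm (ε x) x, smul_add h (h • (x + ε x)), ← add_smul, hh, one_smul]
  obtain ⟨ι, _, b, hb⟩ := simdiag (O := ℤ_[p]) 4 T ![π0, π1, κ, η] (fun k x => by
    fin_cases k
    exacts [f0 _ (g0 x), f1 _ (g1 x), (kf _).2 (kK x), ηη x]) (fun k l x => by
    fin_cases k <;> fin_cases l
    exacts [rfl, m01 x, m0k x, (hη π0 n0 x).symm, (m01 x).symm, rfl, m1k x, (hη π1 n1 x).symm,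
      (m0k x).symm, (m1k x).symm, rfl, (hη κ nk x).symm, hη π0 n0 x, hη π1 n1 x, hη κ nk x, rfl])
  have w0 : ∀ x, x ∈ W0 ↔ π0 x = x := fun x => ⟨f0 x, fun e => e ▸ g0 x⟩
  have w1 : ∀ x, x ∈ W1 ↔ π1 x = x := fun x => ⟨f1 x, fun e => e ▸ g1 x⟩
  refine ⟨ι, inferInstance, b,
    fun i => if b i ∈ W0 then 0 else if b i ∈ W1 then 1 else if b i ∈ K then 3 else 2,
    fun i => decide (η (b i) ≠ b i), fun i => ?_, fun x => ?_, fun x => ?_, fun x => ?_⟩
  · have e : ε (b i) = η (b i) + η (b i) - b i := by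
      simp only [η, LinearMap.smul_apply, LinearMap.add_apply, LinearMap.id_apply]
      rw [← add_smul, hh, one_smul, add_sub_cancel_left]
    by_cases k : η (b i) = b i
    · rw [e, k]; simp [k]
    · rw [e, show η (b i) = 0 from (hb 3 i).resolve_left k]
      simp [k]
  · rw [w0, fix_iff b π0 (hb 0)]
    refine forall_congr' fun i => imp_congr_left ?_
    rw [ne_eq, ← w0]
    beta_reduce
    split_ifs with k <;> simp [k]
  · rw [w1, fix_iff b π1 (hb 1)]
    refine forall_congr' fun i => imp_congr_left ?_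
    rw [ne_eq, ← w1]
    beta_reduce
    split_ifs with k k'
    · simp [l01 k]
    all_goals simp [k']
  · rw [← kf, fix_iff b κ (hb 2)]
    refine forall_congr' fun i => imp_congr_left ?_
    have : b i ∈ W1 → b i ∉ K := fun k k' => b.ne_zero i (by rw [← f1 _ k, k1 _ k'])
    rw [ne_eq, kf]
    beta_reduce
    split_ifs with k k' k''
    · simp [this (l01 k)]
    · simp [this k']
    · simp [k'']
    · simp [k'']

end Pool.Agent.MP_ea150c_mp.H9
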