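import Pool.Agent.MP_ea150c_mp.H49.SpecK
import Pool.Agent.MP_ea150c_mp.H9.PBasis

/-! The perturbation theorem from its matrix form. -/

namespace Pool.Agent.MP_ea150c_mp.H9

open Module Matrix Pool.Agent.MP_ea150c_mp.H49

set_option linter.unusedSectionVars false

noncomputable section

theorem mem_sm {O E : Type} [CommRing O] [AddCommGroup E] [Module O E] {c : O}
    {M : Submodule O E} {x : E} : x ∈ sm c M ↔ ∃ y ∈ M, c • y = x := Submodule.mem_map

theorem mem_W {R ι : Type} [CommRing R] (M : MM R ι) (l : ℕ) (y : ι → R) :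
    y ∈ M.W l ↔ ∀ i, ¬ M.lev i ≤ l → y i = 0 := by
  simp only [MM.W, Submodule.mem_pi, Set.mem_univ, true_imp_iff]
  refine forall_congr' fun i => ?_
  split_ifs with h <;> simp [h]

section Red
variable {p : ℕ} [Fact p.Prime] (S : ℕ)

/-- Reduction of scalars. -/
abbrev ph : ℤ_[p] →+* ZMod (p ^ S) := PadicInt.toZModPow S

/-- A lift of scalars. -/
def lf (r : ZMod (p ^ S)) : ℤ_[p] := (r.val : ℤ_[p])

theorem ph_lf (r : ZMod (p ^ S)) : ph S (lf S r) = r := by
  rw [lf, map_natCast, ZMod.natCast_zmod_val]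

theorem lf_zero : lf S (0 : ZMod (p ^ S)) = 0 := by simp [lf]

theorem dvd_lift {t : ℤ_[p]} {k : ℕ} (h : (p : ZMod (p ^ S)) ^ k ∣ ph S t) :
    (p : ℤ_[p]) ^ min S k ∣ t := by
  obtain ⟨r, hr⟩ := h
  have h1 : t - (p : ℤ_[p]) ^ k * lf S r ∈ RingHom.ker (ph S) := by
    rw [RingHom.mem_ker, map_sub, map_mul, map_pow, map_natCast, ph_lf, hr, sub_self]
  rw [PadicInt.ker_toZModPow, Ideal.mem_span_singleton] at h1
  have h2 := ((pow_dvd_pow _ (min_le_left S k)).trans h1).add
    ((pow_dvd_pow (p : ℤ_[p]) (min_le_right S k)).mul_right (lf S r))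
  rwa [sub_add_cancel] at h2

theorem ph_pow : ph S ((p : ℤ_[p]) ^ S) = 0 := by
  rw [← RingHom.mem_ker, PadicInt.ker_toZModPow]
  exact Ideal.mem_span_singleton_self _

variable {T ι : Type} [AddCommGroup T] [Module ℤ_[p] T] [Fintype ι] [DecidableEq ι]
  (b : Basis ι ℤ_[p] T)

/-- Reduced coordinates. -/
def red : T →ₛₗ[ph (p := p) S] (ι → ZMod (p ^ S)) where
  toFun x i := ph S (b.repr x i)
  map_add' x y := by funext i; simp
  map_smul' c x := by funext i; simp

/-- Reduced matrices. -/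
def rho (f : T →ₗ[ℤ_[p]] T) : Matrix ι ι (ZMod (p ^ S)) := (LinearMap.toMatrix b b f).map (ph S)

theorem rho_apply (f : T →ₗ[ℤ_[p]] T) (i j : ι) : rho S b f i j = red S b (f (b j)) i := by
  rw [rho, map_apply, LinearMap.toMatrix_apply]; rfl

theorem rho_mulVec (f : T →ₗ[ℤ_[p]] T) (x : T) : rho S b f *ᵥ red S b x = red S b (f x) := by
  funext i
  have h := RingHom.map_mulVec (ph S) (LinearMap.toMatrix b b f) (b.repr x) i
  rw [LinearMap.toMatrix_mulVec_repr] at h
  exact h.symm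

theorem rho_pow (f : T →ₗ[ℤ_[p]] T) (k : ℕ) : rho S b f ^ k = rho S b (f ^ k) := by
  rw [rho, rho, ← LinearMap.toMatrix_pow]
  exact (map_pow (ph S).mapMatrix _ k).symm

theorem ex_lift (y : ι → ZMod (p ^ S)) :
    ∃ x, red S b x = y ∧ ∀ i, y i = 0 → b.repr x i = 0 := by
  have h : ∀ i, b.repr (b.equivFun.symm fun i => lf S (y i)) i = lf S (y i) := fun i => by
    rw [← Basis.equivFun_apply, LinearEquiv.apply_symm_apply]
  refine ⟨b.equivFun.symm fun i => lf S (y i), funext fun i => ?_, fun i hi => ?_⟩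
  · change ph S _ = _
    rw [h, ph_lf]
  · rw [h, hi, lf_zero]

theorem red_zero {x : T} {i : ι} (h : b.repr x i = 0) : red S b x i = 0 := by
  change ph S _ = _
  rw [h, map_zero]

theorem sm_of_red (hS : 1 ≤ S) {W : Submodule ℤ_[p] T} (hs : ∀ x, (p : ℤ_[p]) • x ∈ W → x ∈ W)
    {x : T} (hx : x ∈ W) {N : Submodule (ZMod (p ^ S)) (ι → ZMod (p ^ S))}
    (h : red S b x ∈ sm (p : ZMod (p ^ S)) N) : x ∈ sm (p : ℤ_[p]) W := by
  obtain ⟨y, -, hy⟩ := mem_sm.1 h
  have h1 : ∀ i, ∃ c, b.repr x i = p * c := fun i => by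
    have := dvd_lift S (t := b.repr x i) (k := 1) ⟨y i, by rw [pow_one]; exact (congrFun hy i).symm⟩
    rwa [min_eq_right hS, pow_one] at this
  choose c hc using h1
  have e : (p : ℤ_[p]) • b.equivFun.symm c = x := b.ext_elem fun i => by
    rw [map_smul, Finsupp.smul_apply, ← Basis.equivFun_apply, LinearEquiv.apply_symm_apply, hc,
      smul_eq_mul]
  exact mem_sm.2 ⟨_, hs _ (e ▸ hx), e⟩

theorem red_sm {W : Submodule ℤ_[p] T} {N : Submodule (ZMod (p ^ S)) (ι → ZMod (p ^ S))}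
    (h : ∀ x ∈ W, red S b x ∈ N) (k : ℕ) {x : T} (hx : x ∈ sm ((p : ℤ_[p]) ^ k) W) :
    red S b x ∈ sm ((p : ZMod (p ^ S)) ^ k) N := by
  obtain ⟨y, hy, rfl⟩ := mem_sm.1 hx
  exact mem_sm.2 ⟨_, h y hy, by rw [map_smulₛₗ, map_pow, map_natCast]⟩

/-- Vectors supported on the indices of level three. -/
def KS (lv : ι → ℕ) : Submodule (ZMod (p ^ S)) (ι → ZMod (p ^ S)) where
  carrier := {y | ∀ i, lv i ≠ 3 → y i = 0}
  zero_mem' := fun _ _ => rfl
  add_mem' := fun {x y} hx hy i hi => by rw [Pi.add_apply, hx i hi, hy i hi, add_zero]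
  smul_mem' := fun c x hx i hi => by rw [Pi.smul_apply, hx i hi, smul_zero]

/-- The matrix model. -/
def model (D Ψ : T →ₗ[ℤ_[p]] T) (lv : ι → ℕ) (par : ι → Bool) : MM (ZMod (p ^ S)) ι where
  D := rho S b D
  Ψ := rho S b Ψ
  lev := lv
  par := par
  Z := KS S lv ⊓ (KS S lv).comap (rho S b D).mulVecLin

end Red

theorem pStmt (h2 : P2) : PStmt := by
  intro p _ hp T _ _ _ _ ε D Ψ W0 W1 W2 K S hε hεD hεΨ hDD e0 e1 e2 eK l01 l12 hc s0 s1 d0 d1
    hΨ hK herr
  classical
  obtain ⟨ι, _, b, lv, par, hb, w0, w1, wK⟩ :=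
    adapted hp ε hε W0 W1 W2 K e0 e1 e2 eK l01 l12 hc s0 s1
  have rε := repr_diag b ε _ hb
  have r0 : ∀ x ∈ W0, red S b x ∈ (model S b D Ψ lv par).W 0 := fun x hx =>
    (mem_W _ _ _).2 fun i hi => red_zero S b ((w0 x).1 hx i hi)
  have r1 : ∀ x ∈ W1, red S b x ∈ (model S b D Ψ lv par).W 1 := fun x hx =>
    (mem_W _ _ _).2 fun i hi => red_zero S b ((w1 x).1 hx i hi)
  have rK : ∀ x ∈ K, red S b x ∈ KS S lv := fun x hx i hi => red_zero S b ((wK x).1 hx i hi)
  have rE : ∀ x, red S b (D (Ψ x) - Ψ (D x)) ∈ KS S lv := fun x => by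
    obtain ⟨y, hy, z, hz, e⟩ := Submodule.mem_sup.1 (herr x)
    obtain ⟨t, -, rfl⟩ := mem_sm.1 hz
    rw [← e, map_add, map_smulₛₗ, ph_pow, zero_smul, add_zero]
    exact rK y hy
  have bb : ∀ i j, i ≠ j → b.repr (b j) i = 0 := fun i j h => by
    rw [b.repr_self, Finsupp.single_eq_of_ne h]
  have row : ∀ i j, ¬ lv i ≤ 0 → ∃ u t : T, u ∈ W1 ∧
      b.repr (Ψ (b j)) i = p * b.repr u i + p ^ 2 * b.repr t i := fun i j hi => by
    obtain ⟨y, hy, z, hz, e⟩ := Submodule.mem_sup.1 (hΨ (b j))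
    obtain ⟨y0, hy0, y1, hy1, rfl⟩ := Submodule.mem_sup.1 hy
    obtain ⟨u, hu, rfl⟩ := mem_sm.1 hy1
    obtain ⟨t, -, rfl⟩ := mem_sm.1 hz
    refine ⟨u, t, hu, ?_⟩
    rw [← e]
    simp [(w0 y0).1 hy0 i hi]
  have good : (model S b D Ψ lv par).Good (p : ZMod (p ^ S)) := by
    refine ⟨?_, fun i j h => ?_, fun i j h => ?_, fun i j h h' => ?_, fun i j h => ?_,
      fun i j h => ?_, fun z hz i hi => hz.1 i (by change lv i ≤ 1 at hi; omega), fun z hz => ?_,
      fun z hz => ?_, fun x => ?_⟩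
    · refine Matrix.mulVec_injective (funext fun y => ?_)
      obtain ⟨x, rfl, -⟩ := ex_lift S b y
      change (rho S b D * rho S b D) *ᵥ _ = _
      rw [← mulVec_mulVec, rho_mulVec, rho_mulVec, hDD, map_zero, zero_mulVec]
    · refine (rho_apply S b D i j).trans (red_zero S b ?_)
      have a := rε (D (b j)) i
      rw [hεD, hb, show par i = par j from h] at a
      simp only [map_smul, map_neg, Finsupp.neg_apply, Finsupp.smul_apply, smul_eq_mul] at a
      split_ifs at a
      · exact add_self_eq_zero.1 (by linear_combination a)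
      · exact add_self_eq_zero.1 (by linear_combination -a)
    · refine (rho_apply S b Ψ i j).trans (red_zero S b ?_)
      have a := rε (Ψ (b j)) i
      rw [hεΨ, hb] at a
      simp only [map_smul, Finsupp.smul_apply, smul_eq_mul] at a
      change par i ≠ par j at h
      split_ifs at a with k k' k'
      · exact absurd (k'.trans k.symm) h
      · exact add_self_eq_zero.1 (by linear_combination -a)
      · exact add_self_eq_zero.1 (by linear_combination a)
      · exact absurd ((Bool.not_eq_true _ ▸ k').trans (Bool.not_eq_true _ ▸ k).symm) h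
    · refine (rho_apply S b D i j).trans (red_zero S b ?_)
      change lv j ≤ 1 at h
      change lv j < lv i at h'
      rcases Nat.eq_zero_or_pos (lv j) with k | k
      · exact (w0 _).1 (d0 _ ((w0 _).2 fun l hl => bb l j (by rintro rfl; omega))) i (by omega)
      · exact (w1 _).1 (d1 _ ((w1 _).2 fun l hl => bb l j (by rintro rfl; omega))) i (by omega)
    · change lv i = 1 at h
      obtain ⟨u, t, -, e⟩ := row i j (by omega)
      refine ⟨ph S (b.repr u i + p * b.repr t i), (rho_apply S b Ψ i j).trans ?_⟩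
      change ph S _ = _
      rw [e]
      simp only [map_add, map_mul, map_pow, map_natCast]
      ring
    · change 2 ≤ lv i at h
      obtain ⟨u, t, hu, e⟩ := row i j (by omega)
      refine ⟨ph S (b.repr t i), (rho_apply S b Ψ i j).trans ?_⟩
      change ph S _ = _
      rw [e, (w1 u).1 hu i (by omega)]
      simp
    · obtain ⟨x, rfl, -⟩ := ex_lift S b z
      refine ⟨hz.2, ?_⟩
      change rho S b D *ᵥ (rho S b D *ᵥ _) ∈ KS S lv
      rw [rho_mulVec, rho_mulVec, hDD, map_zero]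
      exact zero_mem _
    · have key : ∀ y ∈ KS S lv, rho S b Ψ *ᵥ y ∈ KS S lv := fun y hy => by
        obtain ⟨x, rfl, hx⟩ := ex_lift S b y
        rw [rho_mulVec]
        exact rK _ (hK _ ((wK x).2 fun i hi => hx i (hy i hi)))
      refine ⟨key z hz.1, ?_⟩
      have a := key _ hz.2
      obtain ⟨x, rfl, -⟩ := ex_lift S b z
      change rho S b Ψ *ᵥ (rho S b D *ᵥ _) ∈ KS S lv at a
      change rho S b D *ᵥ (rho S b Ψ *ᵥ _) ∈ KS S lv
      rw [rho_mulVec, rho_mulVec] at a ⊢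
      have a2 := add_mem (rE x) a
      rwa [← map_add, sub_add_cancel] at a2
    · obtain ⟨x, rfl, -⟩ := ex_lift S b x
      have a : (rho S b D * rho S b Ψ - rho S b Ψ * rho S b D) *ᵥ red S b x =
          red S b (D (Ψ x) - Ψ (D x)) := by
        rw [sub_mulVec, ← mulVec_mulVec, ← mulVec_mulVec, rho_mulVec, rho_mulVec, rho_mulVec,
          rho_mulVec, map_sub]
      change (rho S b D * rho S b Ψ - rho S b Ψ * rho S b D) *ᵥ red S b x ∈ _
      rw [a]
      refine ⟨rE x, ?_⟩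
      change rho S b D *ᵥ _ ∈ KS S lv
      have a2 := neg_mem (rE (D x))
      rw [hDD, map_zero, sub_zero] at a2
      rwa [rho_mulVec, map_sub, hDD, zero_sub, map_neg]
  have hstr : ∀ k, (model S b D Ψ lv par).str k = ph S (LinearMap.trace ℤ_[p] T (ε ∘ₗ Ψ ^ k)) := by
    intro k
    rw [LinearMap.trace_eq_matrix_trace ℤ_[p] b, Matrix.trace, map_sum, MM.str]
    refine Finset.sum_congr rfl fun i _ => ?_
    change (if par i then -1 else 1) * (rho S b Ψ ^ k) i i = _
    rw [rho_pow, rho_apply, diag_apply, LinearMap.toMatrix_apply, LinearMap.comp_apply, rε, map_mul]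
    congr 1
    split_ifs <;> simp
  have hH0 : 1 ≤ S → ∀ e ∈ W0, ε e = e → (∀ x ∈ W0, D x ∈ sm (p : ℤ_[p]) W0 →
      ∃ c : ℤ_[p], ∃ z ∈ W0, x - c • e - D z ∈ sm (p : ℤ_[p]) W0) →
      (model S b D Ψ lv par).H0 (p : ZMod (p ^ S)) (red S b e) := by
    intro hS e he hee h
    refine ⟨r0 e he, fun i hi => red_zero S b ?_, fun y hy hD => ?_⟩
    · have a := rε e i
      rw [hee, if_pos (show par i = true from hi)] at a
      exact add_self_eq_zero.1 (by linear_combination a)
    · obtain ⟨x, rfl, hx⟩ := ex_lift S b y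
      have hx0 : x ∈ W0 := (w0 x).2 fun i hi => hx i ((mem_W _ _ _).1 hy i hi)
      change rho S b D *ᵥ _ ∈ _ at hD
      rw [rho_mulVec] at hD
      obtain ⟨c, z, hz, hm⟩ := h x hx0 (sm_of_red S b hS s0 (d0 x hx0) hD)
      refine ⟨ph S c, red S b z, r0 z hz, ?_⟩
      change _ - _ - rho S b D *ᵥ _ ∈ _
      have a := red_sm S b r0 1 (by rw [pow_one]; exact hm)
      rwa [pow_one, map_sub, map_sub, map_smulₛₗ, ← rho_mulVec] at a
  obtain ⟨c1, c2⟩ := h2 p S ι (model S b D Ψ lv par) good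
  refine ⟨fun h k hk => ?_, fun e he hee h h1 hu hS d hd hr => ?_⟩
  · rcases Nat.eq_zero_or_pos S with rfl | hS
    · simp
    have a := hH0 hS 0 (zero_mem _) (map_zero _) fun x hx hD => by
      obtain ⟨z, hz, hm⟩ := h x hx hD
      exact ⟨0, z, hz, by rwa [smul_zero, sub_zero]⟩
    rw [map_zero] at a
    have a2 := c1 a k hk
    rw [hstr] at a2
    exact dvd_lift S a2
  · obtain ⟨u, Λ, hΛ⟩ := c2 _ (hH0 (by omega) e he hee h) (fun y hy hev hD => by
      obtain ⟨x, rfl, hx⟩ := ex_lift S b y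
      have hx1 : x ∈ W1 := (w1 x).2 fun i hi => hx i ((mem_W _ _ _).1 hy i hi)
      have hxe : ε x = x := b.ext_elem fun i => by
        rw [rε]
        split_ifs with k
        · rw [hx i (hev i k), mul_zero]
        · rw [one_mul]
      change rho S b D *ᵥ _ ∈ _ at hD
      rw [rho_mulVec] at hD
      obtain ⟨z, hz, hm⟩ := h1 x hx1 hxe (sm_of_red S b (by omega) s1 (d1 x hx1) hD)
      refine ⟨red S b z, r1 z hz, ?_⟩
      change rho S b Ψ *ᵥ _ - _ • rho S b D *ᵥ _ ∈ _
      obtain ⟨y, hy, t, ht, e⟩ := Submodule.mem_sup.1 hm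
      have a := congrArg (red S b) e
      rw [map_add, map_sub, map_smulₛₗ, map_natCast] at a
      rw [rho_mulVec, rho_mulVec, ← a]
      exact Submodule.add_mem_sup (r0 y hy) (red_sm S b (fun _ _ => Submodule.mem_top) 2 ht))
      (by rw [hstr, pow_one]; exact hu.map _) hS d hd (by
        refine le_trans ?_ hr
        rw [← Fintype.card_subtype]
        refine LinearIndependent.fintype_card_le_finrank (b := fun i : {i // lv i ≤ 1} =>
          (⟨b i, (w1 _).2 fun l hl => bb l i (by rintro rfl; exact hl i.2)⟩ : W1)) ?_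
        exact LinearIndependent.of_comp W1.subtype
          (b.linearIndependent.comp Subtype.val Subtype.val_injective))
    refine ⟨lf S u, Λ.map (lf S), fun k hk => dvd_lift S ?_⟩
    have a : ph S ((Λ.map (lf S) ^ k).trace) = (Λ ^ k).trace := by
      rw [AddMonoidHom.map_trace, Matrix.map_pow, Matrix.map_map]
      congr 2
      exact Matrix.ext fun i j => ph_lf S _
    rw [map_sub, map_sub, map_mul, map_pow, map_pow, map_natCast, ph_lf, a, ← hstr]
    exact hΛ k hk

end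

end Pool.Agent.MP_ea150c_mp.H9
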