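import Pool.Agent.MP_ea150c_mp.H49.SpecV

/-! Row VU: the level one part of the Dwork operator. -/

namespace Pool.Agent.MP_ea150c_mp.H9

open Pool.Agent.MP_ea150c_mp.H49

noncomputable section

section VU
variable {I τ ι : Type} [LinearOrder I] [Fintype I] [Fintype τ] [DecidableEq τ] [Fintype ι]
  [DecidableEq ι] (M : Model I τ ι) (h : M.Good) (p : ℕ) [Fact p.Prime]

/-- The null families as a submodule. -/
def NullS : Submodule ℤ_[p] (ι → Ainv ℤ_[p] I τ) where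
  carrier := {u | M.Null h p u}
  zero_mem' := ⟨0, 0, 0, fun i => by simp⟩
  add_mem' := by
    rintro u u' ⟨η, β, e, hu⟩ ⟨η', β', e', hu'⟩
    refine ⟨η + η', β + β', e + e', fun i => ?_⟩
    rw [Pi.add_apply, hu i, hu' i]
    simp only [Pi.add_apply, add_mul, mul_add, smul_add, Finset.sum_add_distrib]
    ring
  smul_mem' := by
    rintro c u ⟨η, β, e, hu⟩
    refine ⟨c • η, c • β, c • e, fun i => ?_⟩
    rw [Pi.smul_apply, hu i]
    simp only [Pi.smul_apply, smul_add, Finset.smul_sum, smul_mul_assoc, mul_smul_comm,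
      smul_comm c (p : ℤ_[p])]

/-- The level one coefficients. -/
def lv1 : PS ι (Ainv ℤ_[p] I τ) →ₗ[ℤ_[p]] (ι → Ainv ℤ_[p] I τ) where
  toFun b i := b (Pi.single i 1)
  map_add' _ _ := rfl
  map_smul' _ _ := rfl

/-- Series whose level one part is null. -/
def N1 : Submodule ℤ_[p] (PS ι (Ainv ℤ_[p] I τ)) := (NullS M h p).comap (lv1 p)

/-- Series whose level one part is `p` times a null family. -/
def PN : Submodule ℤ_[p] (PS ι (Ainv ℤ_[p] I τ)) :=
  (sm (p : ℤ_[p]) (NullS M h p)).comap (lv1 p)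

theorem p_mem (e : ι → Ainv ℤ_[p] I τ) : (p : ℤ_[p]) • e ∈ NullS M h p :=
  ⟨0, 0, e, fun i => by simp⟩

theorem d_mem (a : Σ j : I, Sl τ j) (c : Ainv ℤ_[p] I τ) :
    (fun i => (M.frame p h).d a.1 a.2 (M.fA ℤ_[p] h i) * c) ∈ NullS M h p := by
  classical
  refine ⟨fun a' => if a' = a then c else 0, 0, 0, fun i => ?_⟩
  simp only [ite_mul, zero_mul, Finset.sum_ite_eq', Finset.mem_univ, if_true, Pi.zero_apply,
    mul_zero, smul_zero, add_zero]
  ring

theorem f_mem (β : ι → Ainv ℤ_[p] I τ) : (fun i => M.fA ℤ_[p] h i * β i) ∈ NullS M h p :=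
  ⟨0, β, 0, fun i => by simp⟩

theorem smul_PN {b : PS ι (Ainv ℤ_[p] I τ)} (hb : b ∈ N1 M h p) : (p : ℤ_[p]) • b ∈ PN M h p :=
  ⟨lv1 p b, hb, rfl⟩

theorem p_N1 (b : PS ι (Ainv ℤ_[p] I τ)) : (p : ℤ_[p]) • b ∈ N1 M h p :=
  p_mem M h p (lv1 p b)

theorem p2_PN (b : PS ι (Ainv ℤ_[p] I τ)) : ((p : ℤ_[p]) ^ 2) • b ∈ PN M h p := by
  rw [sq, mul_smul]
  exact smul_PN M h p (p_N1 M h p b)

omit [Fintype ι] in
theorem ysh_single {A : Type} [CommRing A] (i i' : ι) (c : PS ι A) :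
    ysh A i' c (Pi.single i 1) = if i' = i then c 0 else 0 := by
  by_cases e : i' = i
  · subst e
    simp [ysh]
  · simp [ysh, e]

theorem bl0 {J : Finset I} {w : Gam I} {b : PS ι (Ainv ℤ_[p] I τ)} (hb : b ∈ M.Bl p J w 0)
    (i : ι) : b (Pi.single i 1) = 0 := by
  have h1 := hb (Pi.single i 1) (Set.mem_univ _)
  have h2 : ¬ (∑ i', (Pi.single i 1 : ι → ℕ) i' ≤ 0) := by
    rw [Finset.sum_pi_single']
    simp
  simp only [h2, if_false] at h1
  exact (Submodule.mem_bot _).1 h1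

theorem psi_div (k1 : K1) (hp : 7 ≤ p) (j : I) (b : PS ι (Ainv ℤ_[p] I τ)) :
    ∃ u, M.Lv1 h p j b u := by
  have key : ∀ i, ∃ z, (M.frame p h).Ψ j b (Pi.single i 1) = (p : ℤ_[p]) • z := by
    intro i
    have hK : ∀ (f G : ι → Tor ℤ_[p] (torS τ j)) (l : ι → ℕ), ∃ K,
        Ker p f G (Pi.single i 1) l = (p : ℤ_[p]) • K := by
      intro f G l
      have h1 : ∀ t, ∃ c, kc p 1 (l i) t = (p : ℤ_[p]) * c := fun t => by
        have := (k1 p hp 1 (l i) t).2
        rw [show nu 1 = 1 from rfl, pow_one] at this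
        exact this
      choose c hc using h1
      unfold Ker
      rw [← Finset.mul_prod_erase _ _ (Finset.mem_univ i), Pi.single_eq_same]
      refine ⟨(∑ t ∈ Finset.range (1 + 1), c t • (f i ^ (p * (1 + 1) - (l i + 1) - p * t) *
        G i ^ t)) * ∏ i' ∈ Finset.univ.erase i,
          kap p ((Pi.single i 1 : ι → ℕ) i') (l i') (f i') (G i'), ?_⟩
      rw [← smul_mul_assoc, Finset.smul_sum]
      congr 1
      unfold kap
      exact Finset.sum_congr rfl fun t _ => by rw [hc, mul_smul]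
    choose K hK using hK
    refine ⟨chiInv p τ j (∑ l ∈ Fintype.piFinset
      (fun i' => Finset.range (p * ((Pi.single i 1 : ι → ℕ) i' + 1))),
      psi0 _ ℤ_[p] p (K (fun i => rhoA ℤ_[p] τ j (M.fA ℤ_[p] h i))
        (fun i => divp p (rhoA ℤ_[p] τ j (M.fA ℤ_[p] h i) ^ p -
          phi0 _ ℤ_[p] p (rhoA ℤ_[p] τ j (M.fA ℤ_[p] h i)))) l * chi p τ j (b l))), ?_⟩
    rw [← map_smul, Finset.smul_sum]
    change chiInv p τ j (∑ l ∈ _, psi0 _ ℤ_[p] p (Ker p _ _ _ l * chi p τ j (b l))) = _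
    congr 1
    refine Finset.sum_congr rfl fun l _ => ?_
    rw [hK, smul_mul_assoc, map_smul]
  choose u hu using key
  exact ⟨u, hu⟩

theorem chi_apply (j : I) (a : Ainv ℤ_[p] I τ) :
    chi p τ j a = tX _ ℤ_[p] (cS τ j) ^ 2 * rhoA ℤ_[p] τ j a := rfl

theorem chiInv_apply (j : I) (z : Tor ℤ_[p] (torS τ j)) :
    chiInv p τ j z = kapS ℤ_[p] τ j (tXi _ ℤ_[p] (cS τ j) ^ 2 * z) := rfl

theorem d_apply (j : I) (y : Sl τ j) (a : Ainv ℤ_[p] I τ) :
    (M.frame p h).d j y a = kapS ℤ_[p] τ j (pd _ ℤ_[p] y (rhoA ℤ_[p] τ j a)) := rfl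

omit [Fintype ι] [DecidableEq ι] in
theorem cw_apply {A A' : Type} [CommRing A] [Algebra ℤ_[p] A] [CommRing A'] [Algebra ℤ_[p] A']
    (L : A →ₗ[ℤ_[p]] A') (b : PS ι A) (l : ι → ℕ) : cw p L b l = L (b l) := rfl

theorem D_single (g1 : G1) (j : I) (y : Sl τ j) (b : PS ι (Ainv ℤ_[p] I τ)) (i : ι) :
    (M.frame p h).D j y b (Pi.single i 1) =
      chiInv p τ j (pd _ ℤ_[p] y (chi p τ j (b (Pi.single i 1)))) +
        (M.frame p h).d j y (M.fA ℤ_[p] h i) * b 0 := by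
  have hc : tX (torS τ j) ℤ_[p] (cS τ j) * tXi (torS τ j) ℤ_[p] (cS τ j) = 1 :=
    tX_mul_tXi _ _ (by simp [torS, cS, torV])
  have h2 := (g1 I τ ι M h ℤ_[p] j).2.1
  change chiInv p τ j (DOp p (pd _ ℤ_[p] y) (fun i => rhoA ℤ_[p] τ j (M.fA ℤ_[p] h i))
    (cw p (chi p τ j) b) (Pi.single i 1)) = _
  unfold DOp
  rw [LinearMap.add_apply, Pi.add_apply, map_add, LinearMap.sum_apply, Finset.sum_apply]
  congr 1
  simp only [LinearMap.restrictScalars_apply, LinearMap.smul_apply, Pi.smul_apply, ysh_single,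
    smul_eq_mul, mul_ite, mul_zero, Finset.sum_ite_eq', Finset.mem_univ, if_true]
  rw [cw_apply, chi_apply, chiInv_apply, d_apply]
  have e : tXi _ ℤ_[p] (cS τ j) ^ 2 * (pd _ ℤ_[p] y (rhoA ℤ_[p] τ j (M.fA ℤ_[p] h i)) *
      (tX _ ℤ_[p] (cS τ j) ^ 2 * rhoA ℤ_[p] τ j (b 0))) =
      pd _ ℤ_[p] y (rhoA ℤ_[p] τ j (M.fA ℤ_[p] h i)) * rhoA ℤ_[p] τ j (b 0) *
        (tX (torS τ j) ℤ_[p] (cS τ j) * tXi (torS τ j) ℤ_[p] (cS τ j)) ^ 2 := by ring
  rw [e, hc, one_pow, mul_one, map_mul, h2]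

theorem D_N1 (g1 : G1) (j : I) (y : Sl τ j) (b : PS ι (Ainv ℤ_[p] I τ))
    (u : ι → Ainv ℤ_[p] I τ) (hu : ∀ i, b (Pi.single i 1) = (p : ℤ_[p]) • u i) :
    (M.frame p h).D j y b ∈ N1 M h p := by
  have e : lv1 p ((M.frame p h).D j y b) =
      (p : ℤ_[p]) • (fun i => chiInv p τ j (pd _ ℤ_[p] y (chi p τ j (u i)))) +
        fun i => (M.frame p h).d j y (M.fA ℤ_[p] h i) * b 0 := by
    funext i
    change (M.frame p h).D j y b (Pi.single i 1) = _
    rw [D_single M h p g1, hu, map_smul, map_smul, map_smul]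
    rfl
  change lv1 p _ ∈ NullS M h p
  rw [e]
  exact (NullS M h p).add_mem (p_mem M h p _) (d_mem M h p ⟨j, y⟩ _)

theorem near_PN (k1 : K1) (g1 : G1) (hp : 7 ≤ p) (J : Finset I) (k : I)
    (N : PS ι (Ainv ℤ_[p] I τ) →ₗ[ℤ_[p]] PS ι (Ainv ℤ_[p] I τ))
    (hN : N ∈ (M.frame p h).NearSp J k) (b : PS ι (Ainv ℤ_[p] I τ)) : N b ∈ PN M h p := by
  induction hN using Submodule.span_induction with
  | mem N hN =>
    obtain ⟨s, hs, -, a, -, rfl⟩ := hN
    rw [LinearMap.smul_apply]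
    rcases s with _ | ⟨a1, _ | ⟨a2, s⟩⟩
    · exact absurd rfl hs
    · rw [List.length_singleton, show nu 1 = 1 from rfl, pow_one]
      refine smul_PN M h p ?_
      obtain ⟨u, hu⟩ := psi_div M h p k1 hp k (mulL ℤ_[p] _ a b)
      have e : (M.frame p h).Qw [a1] = (M.frame p h).D a1.1 a1.2 := by
        simp only [FrameData.Qw, List.foldr, LinearMap.comp_id]
      rw [e, LinearMap.comp_apply, LinearMap.comp_apply]
      exact D_N1 M h p g1 a1.1 a1.2 _ u hu
    · obtain ⟨t, ht⟩ : ∃ t, nu (a1 :: a2 :: s).length = t + 2 :=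
        ⟨nu (a1 :: a2 :: s).length - 2, by simp only [List.length_cons, nu]; omega⟩
      rw [ht, pow_add, mul_smul]
      exact (PN M h p).smul_mem _ (p2_PN M h p _)
  | zero => rw [LinearMap.zero_apply]; exact (PN M h p).zero_mem
  | add N N' _ _ h1 h2 => rw [LinearMap.add_apply]; exact (PN M h p).add_mem h1 h2
  | smul c N _ h1 => rw [LinearMap.smul_apply]; exact (PN M h p).smul_mem c h1

theorem word_pos {J : Finset I} {w : Gam I} {l : ℕ}
    {P : Ainv ℤ_[p] I τ →ₗ[ℤ_[p]] PS ι (Ainv ℤ_[p] I τ)} (hP : (M.frame p h).Word J w l P) :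
    1 ≤ l := by
  cases hP <;> omega

theorem L_N1 (g1 : G1) (J : Finset I)
    (P : Ainv ℤ_[p] I τ →ₗ[ℤ_[p]] PS ι (Ainv ℤ_[p] I τ)) (hP : P ∈ (M.frame p h).L J 0 1) :
    P 1 ∈ N1 M h p := by
  induction hP using Submodule.span_induction with
  | mem P hP =>
    obtain ⟨l, hl, hw⟩ := hP
    cases hw with
    | base j y _ l b hj hb =>
      obtain rfl : l = 0 := by omega
      have e : ((M.frame p h).D j y ∘ₗ mOp ℤ_[p] (Ainv ℤ_[p] I τ) b) 1 = (M.frame p h).D j y b := by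
        simp [mOp]
      rw [e]
      exact D_N1 M h p g1 j y b 0 fun i => by rw [bl0 M p hb i]; simp
    | step j y _ l P hj hw =>
      have := word_pos M h p hw
      omega
  | zero => rw [LinearMap.zero_apply]; exact (N1 M h p).zero_mem
  | add N N' _ _ h1 h2 => rw [LinearMap.add_apply]; exact (N1 M h p).add_mem h1 h2
  | smul c N _ h1 => rw [LinearMap.smul_apply]; exact (N1 M h p).smul_mem c h1

theorem dLt_N1 (g1 : G1) (J : Finset I)
    (z : (Ainv ℤ_[p] I τ →ₗ[ℤ_[p]] PS ι (Ainv ℤ_[p] I τ)) × (ι → PS ι (Ainv ℤ_[p] I τ)))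
    (hz : z ∈ (M.frame p h).Lt J 1) : (M.frame p h).dLt z ∈ N1 M h p := by
  refine (N1 M h p).add_mem (L_N1 M h p g1 J _ hz.1) ?_
  have e : lv1 p (∑ i, (M.frame p h).th i (z.2 i)) = fun i => M.fA ℤ_[p] h i * z.2 i 0 := by
    funext i
    change (∑ i, (M.frame p h).th i (z.2 i)) (Pi.single i 1) = _
    rw [Finset.sum_apply]
    have e1 : ∀ i', (M.frame p h).th i' (z.2 i') (Pi.single i 1) =
        if i' = i then M.fA ℤ_[p] h i' * z.2 i' 0 else 0 := by
      intro i'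
      have hb : z.2 i' ∈ M.Bl p J 0 0 := hz.2 i' (Set.mem_univ _)
      change _ * z.2 i' (Pi.single i 1) + M.fA ℤ_[p] h i' * ysh _ i' (z.2 i') (Pi.single i 1) = _
      rw [bl0 M p hb i, ysh_single, mul_zero, zero_add, mul_ite, mul_zero]
    simp only [e1, Finset.sum_ite_eq', Finset.mem_univ, if_true]
  change lv1 p _ ∈ NullS M h p
  rw [e]
  exact f_mem M h p _

end VU

theorem vu (k1 : K1) (_s1 : S1) (s1p : S1p) (g1 : G1) (g2a : G2a) (g2b : G2b) (g3b : G3b) :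
    VU := by
  intro I τ ι _ _ _ _ _ _ M h p _ hp
  have aL := g2a I τ ι M h p
  have aC := g2b I τ ι M h p hp
  have aT := g3b I τ ι M h p hp
  have tf : ∀ u u' : ι → Ainv ℤ_[p] I τ, (p : ℤ_[p]) • u = (p : ℤ_[p]) • u' → u = u' := by
    intro u u' e
    funext i
    have h1 := aL.tf (fun _ => u i - u' i) (by
      funext l
      have := congrFun e i
      simp only [Pi.smul_apply] at this
      simp only [Pi.smul_apply, smul_sub, this, sub_self, Pi.zero_apply])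
    exact sub_eq_zero.1 (congrFun h1 0)
  have back : ∀ (b : PS ι (Ainv ℤ_[p] I τ)) (u : ι → Ainv ℤ_[p] I τ), b ∈ PN M h p →
      lv1 p b = (p : ℤ_[p]) • u → M.Null h p u := by
    rintro b u ⟨n, hn, e⟩ e'
    rw [tf u n (e'.symm.trans e.symm)]
    exact hn
  have lv : ∀ {j b u}, M.Lv1 h p j b u → lv1 p ((M.frame p h).Ψ j b) = (p : ℤ_[p]) • u :=
    fun hu => funext hu
  refine ⟨psi_div M h p k1 hp, fun j b u u' hu hu' => tf _ _ ((lv hu).symm.trans (lv hu')),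
    ?_, ?_, ?_, ?_, ?_⟩
  · intro J j ω b u hj hb hu i
    obtain ⟨b', hb', c, hc, e⟩ := aC.Ψapp J j ω b 0 hj hb
    have h1 : b' ∈ (M.frame p h).Bh J ω := by
      refine (iSup_le fun l => ?_ : _ ≤ (M.frame p h).Bh J ω) hb'
      rintro _ ⟨c', hc', rfl⟩
      exact Submodule.smul_mem _ _ (aL.le J ω l hc')
    have h2 : (M.frame p h).Ψ j b ∈ (M.frame p h).Bh J ω := by
      rw [← sub_add_cancel ((M.frame p h).Ψ j b) b', ← e]
      exact Submodule.add_mem _ (Submodule.smul_mem _ _ hc) h1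
    have h3 := h2 (Pi.single i 1) (Set.mem_univ _)
    have e2 : ∑ i', (Pi.single i 1 : ι → ℕ) i' • M.om i' = M.om i := by
      rw [Finset.sum_eq_single i]
      · simp
      · intro i' _ hi
        simp [hi]
      · simp
    rw [hu i] at h3
    simp only [e2] at h3
    refine Submodule.mem_comap.2 ((s1p p (Var I τ) torV).2.2.1
      (fun u => (∀ v, v ∉ J → 0 ≤ u (Sum.inl (v, 0))) ∧ M.wt u = ω + M.w0 + M.om i) (u i).1 ?_)
    have e3 : ((p : ℕ) : Zr ℤ_[p] I τ) * (u i).1 = ((p : ℤ_[p]) • u i).1 := by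
      rw [Subalgebra.coe_smul, Algebra.smul_def, map_natCast]
    rw [e3]
    exact h3
  · intro j k ω b u u' hb hu hu'
    obtain ⟨N, hN, h1⟩ := aT.near j k 2
    obtain ⟨c, -, e⟩ := h1 Finset.univ (Finset.mem_univ _) (Finset.mem_univ _) ω b hb
    refine back ((M.frame p h).Ψ j b - (M.frame p h).Ψ k b) _ ?_ ?_
    · rw [← sub_add_cancel (_ - _) (N b), ← e]
      exact Submodule.add_mem _ (p2_PN M h p c) (near_PN M h p k1 g1 hp _ k N hN b)
    · rw [map_sub, lv hu, lv hu', smul_sub]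
  · intro j g b u u' hu hu'
    obtain ⟨g', hg⟩ : ∃ g' : Ainv ℤ_[p] I τ, g ^ p = (M.frame p h).φ j g + (p : ℤ_[p]) • g' := by
      refine ⟨kapS ℤ_[p] τ j (divp p (rhoA ℤ_[p] τ j g ^ p - phi0 _ ℤ_[p] p (rhoA ℤ_[p] τ j g))), ?_⟩
      have h1 := congrArg (kapS ℤ_[p] τ j) ((s1p p (Sl τ j) (torS τ j)).2.1 (rhoA ℤ_[p] τ j g))
      rw [map_mul, map_natCast, map_sub, map_pow, (g1 I τ ι M h ℤ_[p] j).2.1] at h1
      rw [Algebra.smul_def, map_natCast, h1]
      change _ = kapS ℤ_[p] τ j (phi0 _ ℤ_[p] p (rhoA ℤ_[p] τ j g)) + _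
      ring
    obtain ⟨w, hw⟩ := psi_div M h p k1 hp j (g' • b)
    have h1 : (M.frame p h).Ψ j (g ^ p • b) =
        g • (M.frame p h).Ψ j b + (p : ℤ_[p]) • (M.frame p h).Ψ j (g' • b) := by
      rw [hg, add_smul, map_add, aC.Ψφ, smul_assoc, map_smul]
    have h2 : u' - g • u = (p : ℤ_[p]) • w := by
      refine tf _ _ (funext fun i => ?_)
      have h3 := congrFun h1 (Pi.single i 1)
      rw [hu' i, Pi.add_apply, Pi.smul_apply, Pi.smul_apply, hu i, hw i] at h3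
      rw [Pi.smul_apply, Pi.smul_apply, Pi.smul_apply, Pi.sub_apply, Pi.smul_apply, smul_sub, h3,
        smul_eq_mul, smul_eq_mul, mul_smul_comm]
      abel
    rw [h2]
    exact p_mem M h p w
  · intro J j b u w hb hu
    obtain ⟨x, hx, y, ⟨c, -, rfl⟩, e⟩ := Submodule.mem_sup.1 hb
    refine back ((M.frame p h).Ψ j b - (p : ℤ_[p]) • w) _ ?_ ?_
    · rw [← e]
      refine Submodule.add_mem _ ?_ (p2_PN M h p c)
      have : lv1 p x = 0 := funext fun i => bl0 M p hx i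
      refine Submodule.mem_comap.2 ?_
      rw [this]
      exact Submodule.zero_mem _
    · rw [map_sub, lv hu, map_smul, smul_sub]
      rfl
  · intro w β v ζ hζ hw J
    obtain ⟨x, hx, y, ⟨c, -, rfl⟩, e⟩ := Submodule.mem_sup.1 hw
    have h1 : w J - dl ℤ_[p] _ β J - v J = x J + (p : ℤ_[p]) • c J + (M.frame p h).dLt (ζ J) := by
      have h2 := congrFun e J
      simp only [Pi.add_apply, Pi.sub_apply, LinearMap.lsmul_apply, Pi.smul_apply] at h2
      rw [h2]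
      abel
    have h3 : w J - dl ℤ_[p] _ β J - v J ∈ N1 M h p := by
      rw [h1]
      refine Submodule.add_mem _ (Submodule.add_mem _ ?_ (p_N1 M h p _))
        (dLt_N1 M h p g1 J _ (hζ.2 J))
      have : lv1 p (x J) = 0 := funext fun i => bl0 M p (hx.2 J) i
      refine Submodule.mem_comap.2 ?_
      rw [this]
      exact Submodule.zero_mem _
    have h4 : lv1 p (w J - dl ℤ_[p] _ β J - v J) = fun i => w J (Pi.single i 1) -
        dl ℤ_[p] _ (fun J' => β J' (Pi.single i 1)) J - v J (Pi.single i 1) := by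
      funext i
      change w J _ - dl ℤ_[p] _ β J (Pi.single i 1) - v J _ = _
      congr 2
      exact Finset.sum_apply _ _ _
    have h5 : lv1 p (w J - dl ℤ_[p] _ β J - v J) ∈ NullS M h p := h3
    rw [h4] at h5
    exact h5

end

end Pool.Agent.MP_ea150c_mp.H9
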