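import Pool.Agent.MP_ea150c_mp.H49.SpecG

/-! G5: the count of the quotient, by slices and inclusion-exclusion. -/

namespace Pool.Agent.MP_ea150c_mp.H9

open Pool.Agent.MP_ea150c_mp.H49

noncomputable section

section G5
variable {I τ ι : Type} [DecidableEq I] [DecidableEq τ] {F : Type} [Field F]

/-- Extension by zero of a point of the slice. -/
def extS (j : I) (y : Sl τ j → F) : Var I τ → F :=
  fun x => if h : x ≠ Sum.inl (j, 1) ∧ x ≠ Sum.inl (j, 2) then y ⟨x, h⟩ else 0

theorem extS_val (j : I) (y : Sl τ j → F) (s : Sl τ j) : extS j y s.1 = y s := by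
  unfold extS
  rw [dif_pos s.2]

theorem extS_one (j : I) (y : Sl τ j → F) : extS j y (Sum.inl (j, 1)) = 0 := by
  unfold extS
  rw [dif_neg (by simp)]

theorem extS_two (j : I) (y : Sl τ j → F) : extS j y (Sum.inl (j, 2)) = 0 := by
  unfold extS
  rw [dif_neg (by simp)]

theorem extS_res (j : I) (x : Var I τ → F) (h1 : x (Sum.inl (j, 1)) = 0)
    (h2 : x (Sum.inl (j, 2)) = 0) : extS j (fun s => x s.1) = x := by
  funext z
  unfold extS
  split_ifs with h
  · rfl
  · rw [not_and_or, not_not, not_not] at h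
    rcases h with rfl | rfl
    · exact h1.symm
    · exact h2.symm

theorem gshift_zero' (x : Var I τ → F) : gshift 0 0 x = x := by
  funext y
  rcases y with ⟨v, t⟩ | t
  · fin_cases t <;> simp [gshift]
  · rfl

theorem gshift_c (n n' : F) (x : Var I τ → F) (v : I) :
    gshift n n' x (Sum.inl (v, 0)) = x (Sum.inl (v, 0)) := by simp [gshift]

theorem gshift_a (n n' : F) (x : Var I τ → F) (v : I) :
    gshift n n' x (Sum.inl (v, 1)) = x (Sum.inl (v, 1)) - n' * x (Sum.inl (v, 0)) := by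
  simp [gshift]

theorem gshift_d (n n' : F) (x : Var I τ → F) (v : I) :
    gshift n n' x (Sum.inl (v, 2)) = x (Sum.inl (v, 2)) - n * x (Sum.inl (v, 0)) := by
  simp [gshift]

variable [Fintype I] [Fintype τ]

theorem eval_fS (M : Model I τ ι) (j : I) (i : ι) (y : Sl τ j → F) :
    MvPolynomial.eval₂ (Int.castRingHom F) y (M.fS j i) =
      MvPolynomial.eval₂ (Int.castRingHom F) (extS j y) (M.f i) := by
  have h3 := MvPolynomial.map_aeval
    (fun x : Var I τ => if h : x ≠ Sum.inl (j, 1) ∧ x ≠ Sum.inl (j, 2) then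
      (MvPolynomial.X ⟨x, h⟩ : MvPolynomial (Sl τ j) ℤ) else 0)
    (MvPolynomial.eval₂Hom (Int.castRingHom F) y) (M.f i)
  unfold Model.fS
  rw [← MvPolynomial.coe_eval₂Hom, h3,
    Subsingleton.elim ((MvPolynomial.eval₂Hom (Int.castRingHom F) y).comp _) (Int.castRingHom F),
    MvPolynomial.coe_eval₂Hom]
  congr 1
  funext x
  unfold extS
  split_ifs with h
  · simp
  · simp

open Classical in
theorem count_slice [Fintype F] (M : Model I τ ι) (h : M.Good) (J : Finset I) (j : I)
    (hj : j ∈ J) :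
    Fintype.card F ^ 2 * cnt (fun x : Sl τ j => ∃ v ∈ J, x.1 = Sum.inl (v, 0)) (M.fS j) F =
      (Finset.univ.filter fun x : Var I τ → F => (∀ v ∈ J, x (Sum.inl (v, 0)) ≠ 0) ∧
        ∀ i, MvPolynomial.eval₂ (Int.castRingHom F) x (M.f i) ≠ 0).card := by
  unfold cnt
  rw [sq, ← Fintype.card_prod, ← Finset.card_univ, ← Finset.card_product]
  refine Finset.card_nbij' (fun z => gshift z.1.1 z.1.2 (extS j z.2))
    (fun x => ((-(x (Sum.inl (j, 2)) / x (Sum.inl (j, 0))),
      -(x (Sum.inl (j, 1)) / x (Sum.inl (j, 0)))),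
      fun s => gshift (x (Sum.inl (j, 2)) / x (Sum.inl (j, 0)))
        (x (Sum.inl (j, 1)) / x (Sum.inl (j, 0))) x s.1)) ?_ ?_ ?_ ?_
  · rintro ⟨⟨n, n'⟩, y⟩ hz
    simp only [Finset.coe_product, Set.mem_prod, Finset.mem_coe, Finset.mem_filter,
      Finset.mem_univ, true_and] at hz ⊢
    obtain ⟨h1, h2⟩ := hz
    refine ⟨fun v hv => ?_, fun i => ?_⟩
    · rw [gshift_c]
      have := h1 (cvS τ j v) ⟨v, hv, rfl⟩
      rwa [← extS_val j y] at this
    · rw [h.inv, ← eval_fS]
      exact h2 i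
  · intro x hx
    simp only [Finset.coe_product, Set.mem_prod, Finset.mem_coe, Finset.mem_filter,
      Finset.mem_univ, true_and] at hx ⊢
    obtain ⟨h1, h2⟩ := hx
    have hc := h1 j hj
    refine ⟨?_, fun i => ?_⟩
    · rintro s ⟨v, hv, hs⟩
      rw [hs, gshift_c]
      exact h1 v hv
    · rw [eval_fS, extS_res, h.inv]
      · exact h2 i
      · rw [gshift_a]; field_simp; ring
      · rw [gshift_d]; field_simp; ring
  · rintro ⟨⟨n, n'⟩, y⟩ hz
    simp only [Finset.coe_product, Set.mem_prod, Finset.mem_coe, Finset.mem_filter,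
      Finset.mem_univ, true_and] at hz
    obtain ⟨h1, -⟩ := hz
    have hc : extS j y (Sum.inl (j, 0)) ≠ 0 := by
      have := h1 (cvS τ j j) ⟨j, hj, rfl⟩
      rwa [← extS_val j y] at this
    have e1 : gshift n n' (extS j y) (Sum.inl (j, 2)) / gshift n n' (extS j y) (Sum.inl (j, 0))
        = -n := by
      rw [gshift_d, gshift_c, extS_two]; field_simp; ring
    have e2 : gshift n n' (extS j y) (Sum.inl (j, 1)) / gshift n n' (extS j y) (Sum.inl (j, 0))
        = -n' := by
      rw [gshift_a, gshift_c, extS_one]; field_simp; ring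
    simp only [e1, e2, neg_neg, gshift_gshift, neg_add_cancel, gshift_zero', extS_val]
  · intro x hx
    simp only [Finset.mem_coe, Finset.mem_filter, Finset.mem_univ, true_and] at hx
    have hc := hx.1 j hj
    simp only
    rw [extS_res, gshift_gshift, neg_add_cancel, neg_add_cancel, gshift_zero']
    · rw [gshift_a]; field_simp; ring
    · rw [gshift_d]; field_simp; ring

theorem alt_subsets (S : Finset I) :
    (∑ J ∈ (Finset.univ : Finset (Finset I)).filter (·.Nonempty),
      (-1 : ℤ) ^ (J.card - 1) * (if J ⊆ S then 1 else 0)) = if S.Nonempty then 1 else 0 := by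
  have h1 : (∑ J ∈ (Finset.univ : Finset (Finset I)).filter (·.Nonempty),
      (-1 : ℤ) ^ (J.card - 1) * (if J ⊆ S then 1 else 0)) =
      -∑ J ∈ S.powerset.erase ∅, (-1 : ℤ) ^ J.card := by
    simp only [mul_ite, mul_one, mul_zero]
    rw [← Finset.sum_filter, ← Finset.sum_neg_distrib]
    refine Finset.sum_congr ?_ fun J hJ => ?_
    · ext J
      simp [Finset.nonempty_iff_ne_empty]
    · have hJ' : J.card ≠ 0 := by
        rw [Finset.mem_erase] at hJ
        exact fun e => hJ.1 (Finset.card_eq_zero.1 e)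
      obtain ⟨k, hk⟩ := Nat.exists_eq_succ_of_ne_zero hJ'
      rw [hk, Nat.succ_sub_one, pow_succ]
      ring
  have h2 := Finset.add_sum_erase S.powerset (fun J => (-1 : ℤ) ^ J.card)
    (Finset.empty_mem_powerset S)
  rw [Finset.sum_powerset_neg_one_pow_card] at h2
  rw [h1]
  simp only [Finset.card_empty, pow_zero] at h2
  by_cases hS : S = ∅
  · rw [if_pos hS] at h2
    rw [if_neg (by simp [hS])]
    linarith
  · rw [if_neg hS] at h2
    rw [if_pos (Finset.nonempty_iff_ne_empty.2 hS)]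
    linarith

end G5

theorem g5 : G5 := by
  classical
  intro I τ ι _ _ _ _ _ _ M h F _ _
  unfold Model.Tc altSum
  rw [Finset.mul_sum, Finset.card_filter]
  have key : ∀ J ∈ (Finset.univ : Finset (Finset I)).filter (·.Nonempty),
      (Fintype.card F : ℤ) ^ 2 * ((-1) ^ (J.card - 1) * (M.cntJ F J : ℤ)) =
      ∑ x : Var I τ → F, (if ∀ i, MvPolynomial.eval₂ (Int.castRingHom F) x (M.f i) ≠ 0 then 1 else 0)
        * ((-1 : ℤ) ^ (J.card - 1) *
          if J ⊆ Finset.univ.filter (fun v => x (Sum.inl (v, 0)) ≠ 0) then 1 else 0) := by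
    intro J hJ
    have hJ' : J.Nonempty := (Finset.mem_filter.1 hJ).2
    have h1 := congrArg (Nat.cast : ℕ → ℤ) (count_slice (F := F) M h J _ (J.min'_mem hJ'))
    rw [Finset.card_filter] at h1
    push_cast at h1
    unfold Model.cntJ
    rw [dif_pos hJ', mul_left_comm, h1, Finset.mul_sum]
    refine Finset.sum_congr rfl fun x _ => ?_
    have e : J ⊆ Finset.univ.filter (fun v => x (Sum.inl (v, 0)) ≠ 0) ↔
        ∀ v ∈ J, x (Sum.inl (v, 0)) ≠ 0 := by
      simp [Finset.subset_iff]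
    by_cases a : ∀ v ∈ J, x (Sum.inl (v, 0)) ≠ 0 <;>
      by_cases b : ∀ i, MvPolynomial.eval₂ (Int.castRingHom F) x (M.f i) ≠ 0
    · rw [if_pos ⟨a, b⟩, if_pos b, if_pos (e.2 a)]; ring
    · rw [if_neg (fun c => b c.2), if_neg b]; ring
    · rw [if_neg (fun c => a c.1), if_neg (fun c => a (e.1 c))]; ring
    · rw [if_neg (fun c => a c.1), if_neg b]; ring
  rw [Finset.sum_congr rfl key, Finset.sum_comm]
  push_cast
  refine Finset.sum_congr rfl fun x _ => ?_
  rw [← Finset.mul_sum, alt_subsets]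
  have e : (Finset.univ.filter (fun v => x (Sum.inl (v, 0)) ≠ 0)).Nonempty ↔
      ∃ v, x (Sum.inl (v, 0)) ≠ 0 := by
    simp [Finset.Nonempty]
  by_cases a : ∃ v, x (Sum.inl (v, 0)) ≠ 0 <;>
    by_cases b : ∀ i, MvPolynomial.eval₂ (Int.castRingHom F) x (M.f i) ≠ 0
  · rw [if_pos b, if_pos (e.2 a), if_pos ⟨a, b⟩]; ring
  · rw [if_neg b, if_neg (fun c : _ ∧ _ => b c.2)]; ring
  · rw [if_neg (fun c => a (e.1 c)), if_neg (fun c : _ ∧ _ => a c.1)]; ring
  · rw [if_neg b, if_neg (fun c : _ ∧ _ => b c.2)]; ring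

end

end Pool.Agent.MP_ea150c_mp.H9
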